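import Pool.Agent.PiBase.Basic

/-!
# Scattered compact spaces of cardinality at most `ℵ₁`
-/

namespace Pool.Agent.PiBase

open Set Topology

universe u

theorem separate {X : Type u} [TopologicalSpace X] [T2Space X] [CompactSpace X] :
    ∃ g : X × X → C(X, ℝ), ∀ x y, x ≠ y → g (x, y) x ≠ g (x, y) y := by
  classical
  have h : ∀ t : X × X, ∃ f : C(X, ℝ), t.1 ≠ t.2 → f t.1 ≠ f t.2 := by
    intro t
    by_cases ht : t.1 = t.2
    · exact ⟨0, fun h => absurd ht h⟩
    · obtain ⟨f, hf⟩ := interpolate {t.1, t.2} (fun x => if x = t.1 then 0 else 1)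
      refine ⟨f, fun _ => ?_⟩
      rw [hf t.1 (by simp), hf t.2 (by simp), if_pos rfl, if_neg (Ne.symm ht)]
      norm_num
  choose g hg using h
  exact ⟨g, fun x y hxy => hg (x, y) hxy⟩

theorem finite_separate {X : Type u} [TopologicalSpace X] [T2Space X] [CompactSpace X]
    (g : X × X → C(X, ℝ)) (hg : ∀ x y, x ≠ y → g (x, y) x ≠ g (x, y) y) (f : C(X, ℝ)) :
    ∃ J : Finset (X × X), ∀ x y, f x ≤ 0 → 1 ≤ f y → ∃ j ∈ J, g j x ≠ g j y := by
  have hK : IsCompact {t : X × X | f t.1 ≤ 0 ∧ 1 ≤ f t.2} := by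
    apply IsClosed.isCompact
    exact (isClosed_le (f.continuous.comp continuous_fst) continuous_const).inter
      (isClosed_le continuous_const (f.continuous.comp continuous_snd))
  obtain ⟨J, hJ⟩ := hK.elim_finite_subcover (fun j : X × X => {t : X × X | g j t.1 ≠ g j t.2})
    (fun j => isOpen_ne_fun ((g j).continuous.comp continuous_fst)
      ((g j).continuous.comp continuous_snd))
    (by
      rintro ⟨x, y⟩ ⟨h1, h2⟩
      have hxy : x ≠ y := by
        rintro rfl
        simp only at h1 h2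
        linarith
      exact mem_iUnion.2 ⟨(x, y), hg x y hxy⟩)
  refine ⟨J, fun x y h1 h2 => ?_⟩
  have := hJ (show (x, y) ∈ {t : X × X | f t.1 ≤ 0 ∧ 1 ≤ f t.2} from ⟨h1, h2⟩)
  simpa using this

/-- few types: a family of `≤ c` continuous functions on a scattered compact space has
at most `c` types -/
theorem few_types {X J : Type u} [TopologicalSpace X] [T2Space X] [CompactSpace X]
    (hs : ∀ s : Set X, s.Nonempty → ∃ x ∈ s, ∃ U : Set X, IsOpen U ∧ U ∩ s = {x})
    (g : J → C(X, ℝ)) (c : Cardinal.{u}) (hc : Cardinal.aleph0 ≤ c) (hJ : Cardinal.mk J ≤ c) :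
    Cardinal.mk (range (fun (x : X) (j : J) => g j x)) ≤ c := by
  refine mk_range_le hs (continuous_pi fun j => (g j).continuous)
    (fun p : Finset (J × ℚ × ℚ) => OO p) (fun p => OO_isOpen p)
    (fun V hV z hz => OO_basis hV hz) c hc ?_
  have h1 : Cardinal.mk (J × ℚ × ℚ) ≤ c := by
    rw [Cardinal.mk_prod, Cardinal.lift_id', Cardinal.mk_prod]
    simp only [Cardinal.mk_eq_aleph0, Cardinal.lift_aleph0, Cardinal.aleph0_mul_aleph0]
    exact (mul_le_mul' hJ hc).trans (Cardinal.mul_eq_self hc).le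
  rcases finite_or_infinite (J × ℚ × ℚ) with h | h
  · have : Finite (Finset (J × ℚ × ℚ)) := inferInstance
    exact (Cardinal.lt_aleph0_of_finite _).le.trans hc
  · rw [Cardinal.mk_finset_of_infinite]
    exact h1

theorem mk_conditions {X : Type u} [Infinite X] :
    Cardinal.mk (Finset (X × ℚ × ℚ)) = Cardinal.mk X := by
  rw [Cardinal.mk_finset_of_infinite, Cardinal.mk_prod, Cardinal.lift_id', Cardinal.mk_prod]
  simp only [Cardinal.mk_eq_aleph0, Cardinal.lift_aleph0, Cardinal.aleph0_mul_aleph0]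
  exact Cardinal.mul_aleph0_eq (Cardinal.aleph0_le_mk X)

theorem aleph_one {X : Type u} [TopologicalSpace X] [T2Space X] [CompactSpace X]
    (hs : ∀ s : Set X, s.Nonempty → ∃ x ∈ s, ∃ U : Set X, IsOpen U ∧ U ∩ s = {x})
    (hcard : Cardinal.mk X ≤ Cardinal.aleph 1) : PCPB X := by
  classical
  by_cases hX : Countable X
  · exact countable_case
  have hX' : Uncountable X := not_countable_iff.1 hX
  have hinf : Infinite X := inferInstance
  obtain ⟨g, hg⟩ := separate (X := X)
  set W : Type u := (Cardinal.aleph.{u} 1).ord.ToType with hW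
  have hWc : ∀ i : W, (Iic i).Countable := by
    intro i
    have h1 : Cardinal.mk (Iio i) < Cardinal.aleph 1 := Cardinal.mk_Iio_toType_ord_lt i
    have h2 : (Iio i).Countable := by
      rw [← Cardinal.le_aleph0_iff_set_countable]
      exact Order.lt_succ_iff.1 (h1.trans_eq Cardinal.succ_aleph0.symm)
    have h3 : Iic i = insert i (Iio i) := by
      ext j; simp [le_iff_eq_or_lt]
    rw [h3]
    exact h2.insert i
  have hmkW : Cardinal.mk W = Cardinal.aleph 1 := Cardinal.mk_ord_toType _
  have hmkP : Cardinal.mk (Finset (X × ℚ × ℚ)) ≤ Cardinal.mk W := by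
    rw [mk_conditions, hmkW]; exact hcard
  have hmkJ : Cardinal.mk (X × X) ≤ Cardinal.mk W := by
    rw [Cardinal.mk_prod, Cardinal.lift_id, Cardinal.mul_eq_self (Cardinal.aleph0_le_mk X), hmkW]
    exact hcard
  obtain ⟨e⟩ := hmkP
  obtain ⟨d⟩ := hmkJ
  -- choose the pair for each condition
  have key : ∀ p : Finset (X × ℚ × ℚ), ∃ y y' : X, y ≠ y' ∧ (∀ t ∈ p, t.1 ≠ y ∧ t.1 ≠ y') ∧
      ∀ j : X × X, d j ≤ e p → g j y = g j y' := by
    intro p
    have hTc : (d ⁻¹' Iic (e p)).Countable :=
      (hWc (e p)).preimage d.injective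
    have hft := few_types hs (fun j : (d ⁻¹' Iic (e p)) => g j.1) Cardinal.aleph0 le_rfl
      (Cardinal.le_aleph0_iff_set_countable.2 hTc)
    have hr : (range (fun (x : X) (j : (d ⁻¹' Iic (e p))) => g j.1 x)).Countable :=
      Cardinal.le_aleph0_iff_set_countable.1 hft
    by_contra hcon
    push Not at hcon
    have hinj : InjOn (fun (x : X) (j : (d ⁻¹' Iic (e p))) => g j.1 x)
        ((p.image Prod.fst : Finset X) : Set X)ᶜ := by
      intro y hy y' hy' hyy
      by_contra hne
      obtain ⟨j, hj, hjne⟩ := hcon y y' hne (by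
        intro t ht
        refine ⟨?_, ?_⟩
        · rintro rfl
          exact hy (by simpa using ⟨t.2.1, t.2.2, ht⟩)
        · rintro rfl
          exact hy' (by simpa using ⟨t.2.1, t.2.2, ht⟩))
      exact hjne (congrFun hyy ⟨j, hj⟩)
    have hc : (((p.image Prod.fst : Finset X) : Set X)ᶜ).Countable :=
      (mapsTo_range _ _).countable_of_injOn hinj hr
    have : (univ : Set X).Countable := by
      rw [← union_compl_self ((p.image Prod.fst : Finset X) : Set X)]
      exact (Finset.countable_toSet _).union hc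
    exact hX (countable_univ_iff.1 this)
  choose y y' h1 h2 h3 using key
  refine criterion y y' h1 h2 ?_
  intro f
  obtain ⟨J, hJ⟩ := finite_separate g hg f
  have hsub : {p | f (y p) < 0 ∧ 1 < f (y' p)} ⊆ ⋃ j ∈ J, e ⁻¹' (Iic (d j)) := by
    rintro p ⟨hp1, hp2⟩
    obtain ⟨j, hj, hne⟩ := hJ (y p) (y' p) hp1.le hp2.le
    refine mem_biUnion hj ?_
    by_contra hlt
    simp only [mem_preimage, mem_Iic, not_le] at hlt
    exact hne (h3 p j hlt.le)
  refine Countable.mono hsub ?_
  exact J.countable_toSet.biUnion (fun j _ => (hWc (d j)).preimage e.injective)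

end Pool.Agent.PiBase
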