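import Mathlib

/-!
# Point-countable π-bases of `C_p(X)`: general tools
-/

namespace Pool.Agent.PiBase

open Set Topology

universe u

/-- basic open conditions on functions -/
def OO {X : Type*} (p : Finset (X × ℚ × ℚ)) : Set (X → ℝ) :=
  {g | ∀ t ∈ p, (t.2.1 : ℝ) < g t.1 ∧ g t.1 < (t.2.2 : ℝ)}

theorem OO_isOpen {X : Type*} (p : Finset (X × ℚ × ℚ)) : IsOpen (OO p) := by
  have : OO p = ⋂ t ∈ p, ({g : X → ℝ | (t.2.1 : ℝ) < g t.1} ∩ {g | g t.1 < (t.2.2 : ℝ)}) := by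
    ext g
    simp [OO]
  rw [this]
  apply isOpen_biInter_finset
  intro t _
  exact (isOpen_lt continuous_const (continuous_apply _)).inter
    (isOpen_lt (continuous_apply _) continuous_const)

theorem OO_basis {X : Type*} {V : Set (X → ℝ)} (hV : IsOpen V) {z : X → ℝ} (hz : z ∈ V) :
    ∃ p : Finset (X × ℚ × ℚ), z ∈ OO p ∧ OO p ⊆ V := by
  classical
  obtain ⟨I, u, hu, hsub⟩ := isOpen_pi_iff.1 hV z hz
  have h1 : ∀ a ∈ I, ∃ q : ℚ × ℚ, (q.1 : ℝ) < z a ∧ z a < q.2 ∧ Ioo (q.1 : ℝ) q.2 ⊆ u a := by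
    intro a ha
    obtain ⟨l, r, hlr, hsub'⟩ := mem_nhds_iff_exists_Ioo_subset.1 ((hu a ha).1.mem_nhds (hu a ha).2)
    obtain ⟨q1, hq1, hq1'⟩ := exists_rat_btwn hlr.1
    obtain ⟨q2, hq2, hq2'⟩ := exists_rat_btwn hlr.2
    exact ⟨(q1, q2), hq1', hq2, (Ioo_subset_Ioo hq1.le hq2'.le).trans hsub'⟩
  choose! q hq1 hq2 hq3 using h1
  refine ⟨I.image (fun a => (a, q a)), ?_, ?_⟩
  · intro t ht
    obtain ⟨a, ha, rfl⟩ := Finset.mem_image.1 ht
    exact ⟨hq1 a ha, hq2 a ha⟩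
  · intro g hg
    apply hsub
    intro a ha
    have := hg (a, q a) (Finset.mem_image.2 ⟨a, ha, rfl⟩)
    exact hq3 a ha ⟨this.1, this.2⟩

/-- interpolation on finite sets -/
theorem interpolate {X : Type*} [TopologicalSpace X] [T2Space X] [CompactSpace X]
    (F : Finset X) (g : X → ℝ) : ∃ f : C(X, ℝ), ∀ x ∈ F, f x = g x := by
  have hcl : IsClosed (F : Set X) := F.finite_toSet.isClosed
  have hfin : Finite (F : Set X) := F.finite_toSet.to_subtype
  obtain ⟨f, hf⟩ := ContinuousMap.exists_restrict_eq hcl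
    (⟨fun x : (F : Set X) => g x, continuous_of_discreteTopology⟩ : C((F : Set X), ℝ))
  refine ⟨f, fun x hx => ?_⟩
  have h2 : (ContinuousMap.restrict (F : Set X) f) ⟨x, hx⟩ = g x := by rw [hf]; rfl
  exact h2

/-- the conclusion: `C_p(X)` has a point-countable π-base -/
def PCPB (X : Type*) [TopologicalSpace X] : Prop :=
  ∃ 𝓑 : Set (Set C(X, ℝ)),
    (∀ B ∈ 𝓑,
      @IsOpen C(X, ℝ)
        (TopologicalSpace.induced (fun f : C(X, ℝ) => (f : X → ℝ)) inferInstance) B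
      ∧ B.Nonempty) ∧
    (∀ U : Set C(X, ℝ),
      @IsOpen C(X, ℝ)
        (TopologicalSpace.induced (fun f : C(X, ℝ) => (f : X → ℝ)) inferInstance) U →
      U.Nonempty → ∃ B ∈ 𝓑, B ⊆ U) ∧
    (∀ f : C(X, ℝ), {B ∈ 𝓑 | f ∈ B}.Countable)

theorem criterion {X : Type*} [TopologicalSpace X] [T2Space X] [CompactSpace X]
    (y y' : Finset (X × ℚ × ℚ) → X) (h1 : ∀ p, y p ≠ y' p)
    (h2 : ∀ p, ∀ t ∈ p, t.1 ≠ y p ∧ t.1 ≠ y' p)
    (h3 : ∀ f : C(X, ℝ), {p | f (y p) < 0 ∧ 1 < f (y' p)}.Countable) : PCPB X := by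
  classical
  set BB : Finset (X × ℚ × ℚ) → Set C(X, ℝ) := fun p =>
    {f | (f : X → ℝ) ∈ OO p ∧ f (y p) < 0 ∧ 1 < f (y' p)} with hBB
  refine ⟨{B | ∃ p, (∃ f : C(X, ℝ), (f : X → ℝ) ∈ OO p) ∧ B = BB p}, ?_, ?_, ?_⟩
  · rintro B ⟨p, ⟨f0, hf0⟩, rfl⟩
    constructor
    · refine isOpen_induced_iff.2 ⟨OO p ∩ ({g | g (y p) < 0} ∩ {g | 1 < g (y' p)}), ?_, ?_⟩
      · exact (OO_isOpen p).inter ((isOpen_lt (continuous_apply _) continuous_const).inter
          (isOpen_lt continuous_const (continuous_apply _)))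
      · ext f
        simp [hBB]
    · obtain ⟨f, hf⟩ := interpolate (p.image Prod.fst ∪ {y p, y' p})
        (fun x => if x = y p then -1 else if x = y' p then 2 else f0 x)
      refine ⟨f, ?_, ?_, ?_⟩
      · intro t ht
        have h := hf t.1 (Finset.mem_union_left _ (Finset.mem_image.2 ⟨t, ht, rfl⟩))
        rw [if_neg (h2 p t ht).1, if_neg (h2 p t ht).2] at h
        rw [h]
        exact hf0 t ht
      · have h := hf (y p) (by simp)
        rw [if_pos rfl] at h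
        rw [h]; norm_num
      · have h := hf (y' p) (by simp)
        rw [if_neg (h1 p).symm, if_pos rfl] at h
        rw [h]; norm_num
  · intro U hU hne
    obtain ⟨V, hV, rfl⟩ := isOpen_induced_iff.1 hU
    obtain ⟨f0, hf0⟩ := hne
    obtain ⟨p, hp1, hp2⟩ := OO_basis hV hf0
    refine ⟨BB p, ⟨p, ⟨f0, hp1⟩, rfl⟩, ?_⟩
    intro f hf
    exact hp2 hf.1
  · intro f
    refine ((h3 f).image BB).mono ?_
    rintro B ⟨⟨p, -, rfl⟩, hf⟩
    exact ⟨p, hf.2, rfl⟩

theorem countable_case {X : Type*} [TopologicalSpace X] [Countable X] : PCPB X := by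
  refine ⟨{B | ∃ p : Finset (X × ℚ × ℚ), (∃ f : C(X, ℝ), (f : X → ℝ) ∈ OO p) ∧
    B = {f : C(X, ℝ) | (f : X → ℝ) ∈ OO p}}, ?_, ?_, ?_⟩
  · rintro B ⟨p, ⟨f0, hf0⟩, rfl⟩
    exact ⟨isOpen_induced_iff.2 ⟨OO p, OO_isOpen p, rfl⟩, ⟨f0, hf0⟩⟩
  · intro U hU hne
    obtain ⟨V, hV, rfl⟩ := isOpen_induced_iff.1 hU
    obtain ⟨f0, hf0⟩ := hne
    obtain ⟨p, hp1, hp2⟩ := OO_basis hV hf0
    exact ⟨_, ⟨p, ⟨f0, hp1⟩, rfl⟩, fun f hf => hp2 hf⟩
  · intro f
    refine (countable_range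
      (fun p : Finset (X × ℚ × ℚ) => {f : C(X, ℝ) | (f : X → ℝ) ∈ OO p})).mono ?_
    rintro B ⟨⟨p, -, rfl⟩, -⟩
    exact ⟨p, rfl⟩

/-- a continuous image of a scattered compact space in a space with few basic open sets
is small -/
theorem mk_range_le {X Z ι : Type u} [TopologicalSpace X] [T2Space X] [CompactSpace X]
    [TopologicalSpace Z] [T2Space Z]
    (hs : ∀ s : Set X, s.Nonempty → ∃ x ∈ s, ∃ U : Set X, IsOpen U ∧ U ∩ s = {x})
    {φ : X → Z} (hφ : Continuous φ) (u : ι → Set Z) (hu : ∀ i, IsOpen (u i))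
    (hb : ∀ V : Set Z, IsOpen V → ∀ z ∈ V, ∃ i, z ∈ u i ∧ u i ⊆ V)
    (c : Cardinal.{u}) (hc : Cardinal.aleph0 ≤ c) (hι : Cardinal.mk ι ≤ c) :
    Cardinal.mk (range φ) ≤ c := by
  classical
  by_contra hlarge
  push Not at hlarge
  set S : Set Z := range φ with hS
  set I0 : Set ι := {i | Cardinal.mk (u i ∩ S : Set Z) ≤ c} with hI0
  set W : Set Z := ⋃ i ∈ I0, u i with hW
  have hWopen : IsOpen W := isOpen_biUnion (fun i _ => hu i)
  have hsmall : Cardinal.mk (W ∩ S : Set Z) ≤ c := by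
    have h1 : (W ∩ S : Set Z) = ⋃ i : I0, (u i ∩ S) := by
      ext z
      simp only [hW, mem_inter_iff, mem_iUnion, Subtype.exists, exists_prop]
      constructor
      · rintro ⟨⟨i, hi, hz⟩, hzS⟩
        exact ⟨i, hi, hz, hzS⟩
      · rintro ⟨i, hi, hz, hzS⟩
        exact ⟨⟨i, hi, hz⟩, hzS⟩
    rw [h1]
    refine (Cardinal.mk_iUnion_le _).trans ?_
    have h2 : Cardinal.mk I0 ≤ c := (Cardinal.mk_set_le I0).trans hι
    have h3 : (⨆ i : I0, Cardinal.mk (u i ∩ S : Set Z)) ≤ c := ciSup_le' (fun i => i.2)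
    calc Cardinal.mk I0 * (⨆ i : I0, Cardinal.mk (u i ∩ S : Set Z)) ≤ c * c :=
          mul_le_mul' h2 h3
      _ = c := Cardinal.mul_eq_self hc
  set R : Set Z := S \ W with hR
  have hSc : IsCompact S := isCompact_range hφ
  have hRc : IsCompact R := hSc.diff hWopen
  -- any open set meeting `R` meets `S` in a large set
  have hlargeR : ∀ V : Set Z, IsOpen V → (V ∩ R).Nonempty → c < Cardinal.mk (V ∩ S : Set Z) := by
    rintro V hV ⟨z, hzV, hzS, hzW⟩
    obtain ⟨i, hi, hiV⟩ := hb V hV z hzV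
    by_contra h
    push Not at h
    have : i ∈ I0 := (Cardinal.mk_le_mk_of_subset (inter_subset_inter_left S hiV)).trans h
    exact hzW (mem_biUnion this hi)
  have hRne : R.Nonempty := by
    by_contra h
    rw [not_nonempty_iff_eq_empty] at h
    have h1 : S ⊆ W ∩ S := fun z hz => by
      refine ⟨?_, hz⟩
      by_contra hzW
      have : z ∈ R := ⟨hz, hzW⟩
      rw [h] at this
      exact this
    exact absurd ((Cardinal.mk_le_mk_of_subset h1).trans hsmall) (not_le.2 hlarge)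
  have hcrowd : ∀ z ∈ R, ∀ V : Set Z, IsOpen V → z ∈ V → ∃ z' ∈ R, z' ∈ V ∧ z' ≠ z := by
    intro z hz V hV hzV
    by_contra h
    push Not at h
    have h1 : V ∩ S ⊆ (W ∩ S) ∪ {z} := by
      rintro w ⟨hw1, hw2⟩
      by_cases hwW : w ∈ W
      · exact Or.inl ⟨hwW, hw2⟩
      · exact Or.inr (h w ⟨hw2, hwW⟩ hw1)
    have h2 : Cardinal.mk (V ∩ S : Set Z) ≤ c := by
      refine (Cardinal.mk_le_mk_of_subset h1).trans ((Cardinal.mk_union_le _ _).trans ?_)
      refine (add_le_add hsmall (Cardinal.mk_singleton z).le).trans ?_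
      rw [Cardinal.add_one_eq hc]
    exact absurd h2 (not_le.2 (hlargeR V hV ⟨z, hzV, hz⟩))
  -- minimal closed set mapping onto R
  set D : Set X := φ ⁻¹' R with hD
  have hDcl : IsClosed D := hRc.isClosed.preimage hφ
  have : CompactSpace D := isCompact_iff_compactSpace.1 hDcl.isCompact
  let π : D → R := fun d => ⟨φ d.1, d.2⟩
  have hπc : Continuous π := by
    apply Continuous.subtype_mk
    exact hφ.comp continuous_subtype_val
  have hπs : Function.Surjective π := by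
    rintro ⟨z, hz⟩
    obtain ⟨x, rfl⟩ := hz.1
    exact ⟨⟨x, hz⟩, rfl⟩
  obtain ⟨E, hEc, hE1, hE2⟩ := exists_compact_surjective_zorn_subset hπc hπs
  have hEne : E.Nonempty := by
    obtain ⟨z, hz⟩ := hRne
    have : (⟨z, hz⟩ : R) ∈ π '' E := by rw [hE1]; trivial
    obtain ⟨e, he, -⟩ := this
    exact ⟨e, he⟩
  obtain ⟨x, hx, U, hU, hUE⟩ := hs (Subtype.val '' E) (hEne.image _)
  obtain ⟨d, hdE, rfl⟩ := hx
  have hdU : (d : X) ∈ U := by
    have : (d : X) ∈ U ∩ (Subtype.val '' E) := by rw [hUE]; rfl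
    exact this.1
  -- the closed subset E without d
  have hcl0 : IsClosed ({e : E | (e.1 : X) ∉ U}) := by
    have : Continuous (fun e : E => ((e.1 : D) : X)) :=
      continuous_subtype_val.comp continuous_subtype_val
    exact (hU.isClosed_compl).preimage this
  have hne0 : ({e : E | (e.1 : X) ∉ U}) ≠ univ := by
    intro h
    have : (⟨d, hdE⟩ : E) ∈ ({e : E | (e.1 : X) ∉ U}) := by rw [h]; trivial
    exact this hdU
  have h0 := hE2 _ hne0 hcl0
  apply h0
  have hcomp : IsCompact (E.domRestrict π '' {e : E | (e.1 : X) ∉ U}) := by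
    have := hEc
    exact (hcl0.isCompact).image (hπc.comp continuous_subtype_val)
  have hcomp2 : IsCompact ((fun r : R => (r : Z)) '' (E.domRestrict π '' {e : E | (e.1 : X) ∉ U})) :=
    hcomp.image continuous_subtype_val
  -- all points of R except possibly π d are in the image
  have himg : ∀ r : R, r ≠ π d → r ∈ E.domRestrict π '' {e : E | (e.1 : X) ∉ U} := by
    intro r hr
    have : r ∈ π '' E := by rw [hE1]; trivial
    obtain ⟨e, he, rfl⟩ := this
    refine ⟨⟨e, he⟩, ?_, rfl⟩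
    intro heU
    have h1 : (e : X) ∈ U ∩ (Subtype.val '' E) := ⟨heU, e, he, rfl⟩
    rw [hUE] at h1
    exact hr (by rw [Subtype.ext h1])
  rw [eq_univ_iff_forall]
  intro r
  by_cases hr : r = π d
  · -- π d is a limit of other points
    by_contra hnot
    have hz : (π d : Z) ∈ ((fun r : R => (r : Z)) ''
        (E.domRestrict π '' {e : E | (e.1 : X) ∉ U}))ᶜ := by
      rintro ⟨r', hr', h⟩
      have : r' = r := by rw [hr]; exact Subtype.ext h
      exact hnot (this ▸ hr')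
    obtain ⟨z', hz'R, hz'V, hz'ne⟩ := hcrowd (π d : Z) (π d).2 _ hcomp2.isClosed.isOpen_compl hz
    apply hz'V
    refine ⟨⟨z', hz'R⟩, himg _ ?_, rfl⟩
    intro h
    exact hz'ne (congrArg Subtype.val h)
  · exact himg r hr

end Pool.Agent.PiBase
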