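import Pool.Agent.PiBase.AlephOne

/-!
# Scattered compact spaces with a large closed set whose derived set is smaller
-/

namespace Pool.Agent.PiBase

open Set Topology Filter

universe u

/-- if a map has few values on a large set, there are fixed point free injections
on a large part of the set preserving the map -/
theorem exists_pairs {D T : Type u} (φ : D → T) (hlt : Cardinal.mk (range φ) < Cardinal.mk D)
    (hD : Cardinal.aleph0 < Cardinal.mk D) :
    ∃ y y' : D → D, Function.Injective y ∧ Function.Injective y' ∧ (∀ i, y i ≠ y' i) ∧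
      ∀ i, φ (y i) = φ (y' i) := by
  classical
  -- the points in infinite classes
  set A : Set D := {x | (φ ⁻¹' {φ x}).Infinite} with hA
  have hAc : Cardinal.mk (Aᶜ : Set D) < Cardinal.mk D := by
    have h1 : (Aᶜ : Set D) ⊆ ⋃ t : {t : range φ // (φ ⁻¹' {t.1}).Finite}, φ ⁻¹' {t.1.1} := by
      intro x hx
      have hx' : (φ ⁻¹' {φ x}).Finite := by
        by_contra h
        exact hx h
      exact mem_iUnion.2 ⟨⟨⟨φ x, mem_range_self x⟩, hx'⟩, rfl⟩
    refine (Cardinal.mk_le_mk_of_subset h1).trans_lt ((Cardinal.mk_iUnion_le _).trans_lt ?_)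
    have h2 : Cardinal.mk {t : range φ // (φ ⁻¹' {t.1}).Finite} ≤ Cardinal.mk (range φ) :=
      Cardinal.mk_subtype_le _
    have h3 : (⨆ t : {t : range φ // (φ ⁻¹' {t.1}).Finite},
        Cardinal.mk (φ ⁻¹' {t.1.1} : Set D)) ≤ Cardinal.aleph0 :=
      ciSup_le' (fun t => (Cardinal.lt_aleph0_iff_set_finite.2 t.2).le)
    refine (mul_le_mul' h2 h3).trans_lt ?_
    exact Cardinal.mul_lt_of_lt hD.le hlt hD
  have hAmk : Cardinal.mk A = Cardinal.mk D := by
    have h := Cardinal.mk_sum_compl A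
    by_contra hne
    have h1 : Cardinal.mk A < Cardinal.mk D := lt_of_le_of_ne (Cardinal.mk_set_le A) hne
    have h2 := Cardinal.add_lt_of_lt hD.le h1 hAc
    rw [h] at h2
    exact lt_irrefl _ h2
  -- each infinite class is the double of itself
  have hcl : ∀ t : T, (φ ⁻¹' {t}).Infinite →
      Nonempty ((φ ⁻¹' {t} : Set D) × Bool ≃ (φ ⁻¹' {t} : Set D)) := by
    intro t ht
    have : Infinite (φ ⁻¹' {t} : Set D) := ht.to_subtype
    apply Cardinal.eq.1
    rw [Cardinal.mk_prod, Cardinal.mk_bool, Cardinal.lift_id', Cardinal.lift_ofNat]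
    exact Cardinal.mul_eq_left (Cardinal.aleph0_le_mk _)
      (Cardinal.natCast_lt_aleph0 (n := 2) |>.le.trans (Cardinal.aleph0_le_mk _)) (by norm_num)
  set I := {t : T // (φ ⁻¹' {t}).Infinite} with hI
  let E : ∀ t : I, (φ ⁻¹' {t.1} : Set D) × Bool ≃ (φ ⁻¹' {t.1} : Set D) :=
    fun t => (hcl t.1 t.2).some
  let G : (Σ t : I, (φ ⁻¹' {t.1} : Set D) × Bool) → D := fun s => (E s.1 s.2).1
  have hGφ : ∀ s, φ (G s) = s.1.1 := fun s => (E s.1 s.2).2
  have hGinj : Function.Injective G := by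
    rintro ⟨t, z⟩ ⟨t', z'⟩ h
    have h1 : t = t' := by
      apply Subtype.ext
      rw [← hGφ ⟨t, z⟩, ← hGφ ⟨t', z'⟩, h]
    subst h1
    have h2 : E t z = E t z' := Subtype.ext h
    rw [(E t).injective h2]
  let r : (Σ t : I, (φ ⁻¹' {t.1} : Set D) × Bool) → D := fun s => s.2.1.1
  let b : (Σ t : I, (φ ⁻¹' {t.1} : Set D) × Bool) → Bool := fun s => s.2.2
  let emb : Bool → A → (Σ t : I, (φ ⁻¹' {t.1} : Set D) × Bool) :=
    fun c a => ⟨⟨φ a.1, a.2⟩, (⟨a.1, rfl⟩, c)⟩
  obtain ⟨ψ⟩ : Nonempty (D ≃ A) := Cardinal.eq.1 hAmk.symm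
  refine ⟨fun i => G (emb false (ψ i)), fun i => G (emb true (ψ i)), ?_, ?_, ?_, ?_⟩
  · intro i j h
    have h1 := congrArg r (hGinj h)
    exact ψ.injective (Subtype.ext h1)
  · intro i j h
    have h1 := congrArg r (hGinj h)
    exact ψ.injective (Subtype.ext h1)
  · intro i h
    have h1 := congrArg b (hGinj h)
    exact Bool.false_ne_true h1
  · intro i
    show φ (G _) = φ (G _)
    rw [hGφ, hGφ]

theorem smaller_derived {X : Type u} [TopologicalSpace X] [T2Space X] [CompactSpace X]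
    (hs : ∀ s : Set X, s.Nonempty → ∃ x ∈ s, ∃ U : Set X, IsOpen U ∧ U ∩ s = {x})
    (K : Set X) (hKcl : IsClosed K) (hK : Cardinal.mk K = Cardinal.mk X)
    (hN : Cardinal.mk ({x | x ∈ K ∧ AccPt x (𝓟 K)} : Set X) < Cardinal.mk X) : PCPB X := by
  classical
  by_cases hX : Countable X
  · exact countable_case
  have hX' : Uncountable X := not_countable_iff.1 hX
  have hinf : Infinite X := inferInstance
  have hXc : Cardinal.aleph0 < Cardinal.mk X := Cardinal.aleph0_lt_mk
  set N : Set X := {x | x ∈ K ∧ AccPt x (𝓟 K)} with hNdef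
  set D : Set X := K \ N with hDdef
  have hDmk : Cardinal.mk D = Cardinal.mk X := by
    by_contra hne
    have h1 : Cardinal.mk D < Cardinal.mk X := lt_of_le_of_ne (Cardinal.mk_set_le D) hne
    have h2 : K ⊆ D ∪ N := by
      intro x hx
      by_cases hxN : x ∈ N
      · exact Or.inr hxN
      · exact Or.inl ⟨hx, hxN⟩
    have h3 := (Cardinal.mk_le_mk_of_subset h2).trans (Cardinal.mk_union_le _ _)
    rw [hK] at h3
    exact absurd (Cardinal.add_lt_of_lt hXc.le h1 hN) (not_lt.2 h3)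
  obtain ⟨g, hg⟩ := separate (X := X)
  -- the type map over N
  set φ : D → ((N × N : Type u) → ℝ) := fun x j => g (j.1.1, j.2.1) x.1 with hφ
  have hrange : Cardinal.mk (range φ) < Cardinal.mk D := by
    rw [hDmk]
    have h1 : Cardinal.mk (N × N : Type u) ≤ max (Cardinal.mk N) Cardinal.aleph0 := by
      rw [Cardinal.mk_prod, Cardinal.lift_id]
      refine (mul_le_mul' (le_max_left _ Cardinal.aleph0) (le_max_left _ Cardinal.aleph0)).trans ?_
      exact (Cardinal.mul_eq_self (le_max_right _ _)).le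
    have h2 := few_types hs (fun j : (N × N : Type u) => g (j.1.1, j.2.1))
      (max (Cardinal.mk N) Cardinal.aleph0) (le_max_right _ _) h1
    have h3 : range φ ⊆ range (fun (x : X) (j : (N × N : Type u)) => g (j.1.1, j.2.1) x) := by
      rintro _ ⟨x, rfl⟩
      exact ⟨x.1, rfl⟩
    refine ((Cardinal.mk_le_mk_of_subset h3).trans h2).trans_lt (max_lt hN hXc)
  obtain ⟨y0, y0', hy0, hy0', hne0, hφ0⟩ := exists_pairs φ hrange (by rw [hDmk]; exact hXc)
  -- index by conditions times natural numbers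
  have hmk : Cardinal.mk (Finset (X × ℚ × ℚ) × ℕ) = Cardinal.mk D := by
    rw [Cardinal.mk_prod, mk_conditions, hDmk]
    simp only [Cardinal.mk_eq_aleph0, Cardinal.lift_aleph0, Cardinal.lift_id']
    exact Cardinal.mul_aleph0_eq hXc.le
  obtain ⟨ψ⟩ := Cardinal.eq.1 hmk
  have key : ∀ p : Finset (X × ℚ × ℚ), ∃ n : ℕ,
      ∀ t ∈ p, t.1 ≠ (y0 (ψ (p, n))).1 ∧ t.1 ≠ (y0' (ψ (p, n))).1 := by
    intro p
    by_contra hcon
    push Not at hcon
    have h1 : Function.Injective (fun n => (y0 (ψ (p, n))).1) := by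
      intro m n h
      have := ψ.injective (hy0 (Subtype.ext h))
      exact (Prod.mk.inj this).2
    have h2 : Function.Injective (fun n => (y0' (ψ (p, n))).1) := by
      intro m n h
      have := ψ.injective (hy0' (Subtype.ext h))
      exact (Prod.mk.inj this).2
    have hf1 := (p.image Prod.fst).finite_toSet.preimage (h1.injOn (s := _))
    have hf2 := (p.image Prod.fst).finite_toSet.preimage (h2.injOn (s := _))
    have : (univ : Set ℕ) ⊆ (fun n => (y0 (ψ (p, n))).1) ⁻¹' ((p.image Prod.fst : Finset X) : Set X)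
        ∪ (fun n => (y0' (ψ (p, n))).1) ⁻¹' ((p.image Prod.fst : Finset X) : Set X) := by
      intro n _
      obtain ⟨t, ht, htn⟩ := hcon n
      by_cases h : t.1 = (y0 (ψ (p, n))).1
      · left
        exact Finset.mem_coe.2 (Finset.mem_image.2 ⟨t, ht, h⟩)
      · right
        exact Finset.mem_coe.2 (Finset.mem_image.2 ⟨t, ht, htn h⟩)
    exact infinite_univ ((hf1.union hf2).subset this)
  choose n hn using key
  refine criterion (fun p => (y0 (ψ (p, n p))).1) (fun p => (y0' (ψ (p, n p))).1) ?_ hn ?_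
  · intro p h
    exact hne0 _ (Subtype.ext h)
  intro f
  apply Set.Finite.countable
  by_contra hA
  set A : Set (Finset (X × ℚ × ℚ)) :=
    {p | f (y0 (ψ (p, n p))).1 < 0 ∧ 1 < f (y0' (ψ (p, n p))).1} with hAdef
  have hne : (cofinite ⊓ 𝓟 A).NeBot := cofinite_inf_principal_neBot_iff.2 hA
  set 𝒰 : Ultrafilter (Finset (X × ℚ × ℚ)) := Ultrafilter.of (cofinite ⊓ 𝓟 A) with h𝒰
  have hle : (𝒰 : Filter _) ≤ cofinite ⊓ 𝓟 A := Ultrafilter.of_le _
  have hcof : (𝒰 : Filter (Finset (X × ℚ × ℚ))) ≤ cofinite := hle.trans inf_le_left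
  have hA𝒰 : A ∈ (𝒰 : Filter _) := le_principal_iff.1 (hle.trans inf_le_right)
  set Y : Finset (X × ℚ × ℚ) → X := fun p => (y0 (ψ (p, n p))).1 with hY
  set Y' : Finset (X × ℚ × ℚ) → X := fun p => (y0' (ψ (p, n p))).1 with hY'
  have hYinj : Function.Injective Y := by
    intro p q h
    have := ψ.injective (hy0 (Subtype.ext h))
    exact (Prod.mk.inj this).1
  have hYinj' : Function.Injective Y' := by
    intro p q h
    have := ψ.injective (hy0' (Subtype.ext h))
    exact (Prod.mk.inj this).1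
  have hlim : ∀ Z : Finset (X × ℚ × ℚ) → X, Function.Injective Z → (∀ p, Z p ∈ K) →
      ∃ z ∈ N, Tendsto Z 𝒰 (𝓝 z) := by
    intro Z hZ hZK
    have ht : Tendsto Z 𝒰 (𝓝 (𝒰.map Z).lim) := (𝒰.map Z).le_nhds_lim
    refine ⟨(𝒰.map Z).lim, ⟨?_, ?_⟩, ht⟩
    · exact hKcl.mem_of_tendsto ht (Eventually.of_forall hZK)
    · rw [accPt_iff_nhds]
      intro U hU
      have h1 : Z ⁻¹' U ∈ (𝒰 : Filter _) := ht hU
      have h2 : {p | Z p ≠ (𝒰.map Z).lim} ∈ (𝒰 : Filter _) := by
        apply hcof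
        rw [mem_cofinite]
        have : {p | Z p ≠ (𝒰.map Z).lim}ᶜ ⊆ Z ⁻¹' {(𝒰.map Z).lim} := by
          intro p hp
          simpa using hp
        exact ((finite_singleton _).preimage (hZ.injOn)).subset this
      obtain ⟨p, hp1, hp2⟩ := 𝒰.nonempty_of_mem (Filter.inter_mem h1 h2)
      exact ⟨Z p, ⟨hp1, hZK p⟩, hp2⟩
  obtain ⟨z, hzN, hz⟩ := hlim Y hYinj (fun p => (y0 (ψ (p, n p))).2.1)
  obtain ⟨z', hzN', hz'⟩ := hlim Y' hYinj' (fun p => (y0' (ψ (p, n p))).2.1)
  have hfz : f z ≤ 0 := by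
    refine le_of_tendsto ((f.continuous.tendsto z).comp hz) ?_
    filter_upwards [hA𝒰] with p hp
    exact hp.1.le
  have hfz' : 1 ≤ f z' := by
    refine ge_of_tendsto ((f.continuous.tendsto z').comp hz') ?_
    filter_upwards [hA𝒰] with p hp
    exact hp.2.le
  have hzz : z ≠ z' := by
    rintro rfl
    linarith
  apply hg z z' hzz
  have e1 : Tendsto (fun p => g (z, z') (Y p)) 𝒰 (𝓝 (g (z, z') z)) :=
    ((g (z, z')).continuous.tendsto z).comp hz
  have e2 : Tendsto (fun p => g (z, z') (Y' p)) 𝒰 (𝓝 (g (z, z') z')) :=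
    ((g (z, z')).continuous.tendsto z').comp hz'
  have e3 : (fun p => g (z, z') (Y p)) = fun p => g (z, z') (Y' p) := by
    funext p
    exact congrFun (hφ0 (ψ (p, n p))) (⟨z, hzN⟩, ⟨z', hzN'⟩)
  rw [e3] at e1
  exact tendsto_nhds_unique e1 e2

theorem isClosed_derived {X : Type u} [TopologicalSpace X] [T2Space X] {s : Set X}
    (hs : IsClosed s) : IsClosed {x | x ∈ s ∧ AccPt x (𝓟 s)} := by
  have h : {x | x ∈ s ∧ AccPt x (𝓟 s)} = s ∩ derivedSet s := rfl
  rw [h]
  exact hs.inter (isClosed_derivedSet s)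

theorem small_iterate {X : Type u} [TopologicalSpace X] [T2Space X] [CompactSpace X]
    (hs : ∀ s : Set X, s.Nonempty → ∃ x ∈ s, ∃ U : Set X, IsOpen U ∧ U ∩ s = {x})
    (K : Set X) (hKcl : IsClosed K) (hK : Cardinal.mk K = Cardinal.mk X) (n : ℕ)
    (hn : Cardinal.mk ((fun s : Set X => {x | x ∈ s ∧ AccPt x (𝓟 s)})^[n] K) <
      Cardinal.mk X) : PCPB X := by
  induction n generalizing K with
  | zero =>
    rw [Function.iterate_zero, id, hK] at hn
    exact absurd hn (lt_irrefl _)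
  | succ n ih =>
    rw [Function.iterate_succ, Function.comp_apply] at hn
    by_cases h : Cardinal.mk ({x | x ∈ K ∧ AccPt x (𝓟 K)} : Set X) < Cardinal.mk X
    · exact smaller_derived hs K hKcl hK h
    · exact ih _ (isClosed_derived hKcl)
        (le_antisymm (Cardinal.mk_set_le _) (not_lt.1 h)) hn

end Pool.Agent.PiBase
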