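import Pool.Agent.Hhelper71.Cp.Final

/-!
# Scattered compact spaces with few points of uncountable tightness

The chain construction of `Pool.Agent.Hhelper71.Cp.Chain` works as soon as fewer than `#X` points of
`X` have uncountable tightness: put these points into the first member of the chain.
-/

set_option autoImplicit false

open Topology Cardinal Set

namespace Pool.Agent.PiBase

open Pool.Agent.Hhelper71.Cp

universe u

variable {X : Type u} [TopologicalSpace X]

/-- the tightness of the space at `x` is countable -/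
def TightAt (x : X) : Prop := ∀ A : Set X, x ∈ closure A → ∃ C ⊆ A, C.Countable ∧ x ∈ closure C

/-- the points in the closures of the countable subsets of `A` -/
def ocl (A : Set X) : Set X := {x | ∃ C ⊆ A, C.Countable ∧ x ∈ closure C}

lemma subset_ocl (A : Set X) : A ⊆ ocl A := fun x hx =>
  ⟨{x}, Set.singleton_subset_iff.2 hx, Set.countable_singleton x, subset_closure rfl⟩

lemma ocl_mono {A B : Set X} (h : A ⊆ B) : ocl A ⊆ ocl B := by
  rintro x ⟨C, hC, hc, hx⟩
  exact ⟨C, hC.trans h, hc, hx⟩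

/-- `ocl A` is closed under closures of countable subsets -/
lemma closure_subset_ocl {A D : Set X} (hD : D ⊆ ocl A) (hDc : D.Countable) :
    closure D ⊆ ocl A := by
  have hD' : ∀ d ∈ D, ∃ C ⊆ A, C.Countable ∧ d ∈ closure C := fun d hd => hD hd
  choose! C hC hCc hx using hD'
  intro x hxD
  refine ⟨⋃ d ∈ D, C d, ?_, ?_, ?_⟩
  · exact Set.iUnion₂_subset fun d hd => hC d hd
  · exact hDc.biUnion fun d hd => hCc d hd
  · have h1 : D ⊆ closure (⋃ d ∈ D, C d) := by
      intro d hd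
      exact closure_mono (Set.subset_biUnion_of_mem hd) (hx d hd)
    exact closure_minimal h1 isClosed_closure hxD

lemma ocl_subset_range [T2Space X] [CompactSpace X] (S : Setup X) (hX : Scattered X)
    (P : Set X) :
    ocl P ⊆ Set.range (fun s : ℕ → P => S.mx (closure (Set.range (fun n => (s n : X))))) := by
  rintro x ⟨C, hCP, hC, hxC⟩
  obtain ⟨W, hW, hxW, hWρ⟩ := hX.exists_clopen (S.op x)
    (show x ∈ {y | S.ρ y ≤ S.ρ x} from le_refl (S.ρ x))
  have h1 : x ∈ closure (W ∩ C) := by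
    rw [mem_closure_iff] at hxC ⊢
    intro O hO hxO
    obtain ⟨y, hy, hyC⟩ := hxC (O ∩ W) (hO.inter hW.isOpen) ⟨hxO, hxW⟩
    exact ⟨y, hy.1, hy.2, hyC⟩
  have hne : (W ∩ C).Nonempty := by
    rw [← closure_nonempty_iff]
    exact ⟨x, h1⟩
  obtain ⟨s, hs⟩ := (hC.mono Set.inter_subset_right).exists_eq_range hne
  have hsP : ∀ n, s n ∈ P := fun n => by
    have : s n ∈ W ∩ C := by rw [hs]; exact ⟨n, rfl⟩
    exact hCP this.2
  refine ⟨fun n => ⟨s n, hsP n⟩, ?_⟩
  show S.mx (closure (Set.range s)) = x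
  rw [← hs]
  have hK : IsCompact (closure (W ∩ C)) := isClosed_closure.isCompact
  have hKne : (closure (W ∩ C)).Nonempty := ⟨x, h1⟩
  have h2 := S.mx_le _ hK hKne x h1
  have h3 : S.mx (closure (W ∩ C)) ∈ W :=
    (closure_minimal Set.inter_subset_left hW.isClosed) (S.mx_mem _ hK hKne)
  exact S.inj (le_antisymm (hWρ h3) h2)

lemma mk_ocl_le [T2Space X] [CompactSpace X] (S : Setup X) (hX : Scattered X) (P : Set X) :
    #(ocl P) ≤ #P ^ ℵ₀ := by
  refine (Cardinal.mk_le_mk_of_subset (ocl_subset_range S hX P)).trans ?_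
  refine Cardinal.mk_range_le.trans ?_
  simp

lemma closed_of_tight {I : Type u} [LinearOrder I] [WellFoundedLT I] (E : Set X)
    (ht : ∀ x, x ∉ E → TightAt x) (P : I → Set X)
    (mono : Monotone P) (hcl : ∀ i j, i < j → ocl (P i) ∪ E ⊆ P j) (T : Set I)
    (hT : ¬ T.Countable) (hTseg : ∀ i ∈ T, {j ∈ T | j < i}.Countable) :
    IsClosed (⋃ i ∈ T, P i) := by
  classical
  have hTmax : ∀ i ∈ T, ∃ j ∈ T, i < j := by
    intro i hi
    by_contra h
    push Not at h
    apply hT
    refine ((hTseg i hi).union (Set.countable_singleton i)).mono fun j hj => ?_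
    rcases (h j hj).lt_or_eq with h' | h'
    · exact Or.inl ⟨hj, h'⟩
    · exact Or.inr h'
  have hTne : T.Nonempty := by
    rw [Set.nonempty_iff_ne_empty]
    intro h
    exact hT (by rw [h]; exact Set.countable_empty)
  rw [← closure_subset_iff_isClosed]
  intro x hx
  by_cases hxE : x ∈ E
  · obtain ⟨i, hi⟩ := hTne
    obtain ⟨j, hj, hij⟩ := hTmax i hi
    exact Set.mem_iUnion₂.2 ⟨j, hj, hcl i j hij (Or.inr hxE)⟩
  obtain ⟨C, hC, hCc, hxC⟩ := ht x hxE _ hx
  have h1 : ∀ y : C, ∃ i ∈ T, (y : X) ∈ P i := fun y => by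
    obtain ⟨i, hi, hyi⟩ := Set.mem_iUnion₂.1 (hC y.2)
    exact ⟨i, hi, hyi⟩
  choose i hiT hi using h1
  have h2 : ∃ t ∈ T, ∀ y, i y ≤ t := by
    by_contra h
    push Not at h
    apply hT
    have := hCc.to_subtype
    refine (Set.countable_iUnion fun y : C => hTseg (i y) (hiT y)).mono fun t htT => ?_
    obtain ⟨y, hy⟩ := h t htT
    exact Set.mem_iUnion.2 ⟨y, htT, hy⟩
  obtain ⟨t, htT, hty⟩ := h2
  obtain ⟨t', ht'T, htt'⟩ := hTmax t htT
  refine Set.mem_iUnion₂.2 ⟨t', ht'T, hcl t t' htt' (Or.inl ?_)⟩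
  exact ⟨C, fun y hy => mono (hty ⟨y, hy⟩) (hi ⟨y, hy⟩), hCc, hxC⟩

/-- fewer than `#X` points of uncountable tightness, and `c ^ ℵ₀ < #X` for all `c < #X` -/
theorem good_of_tight_pow [T2Space X] [CompactSpace X] (hX : Scattered X) (E : Set X)
    (hE : #E < #X) (ht : ∀ x, x ∉ E → TightAt x)
    (hX0 : ℵ₀ < #X) (hpow : ∀ c : Cardinal.{u}, c < #X → c ^ ℵ₀ < #X) : Good X := by
  classical
  have hIio : ∀ j : (#X).ord.ToType, #(Set.Iio j) < #X := by
    intro j
    simpa using Cardinal.mk_Iio_lt j (by simp)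
  refine good_of_chain hX (fun P => ocl P ∪ E)
    (fun P => (subset_ocl P).trans Set.subset_union_left) hX0 ?_ ?_
  · intro S P g e hP j
    have key : #(P j) ≤ (max (max ℵ₀ #E) #(Set.Iio j)) ^ ℵ₀ := by
      induction j using WellFoundedLT.induction with
      | ind j ih =>
        set c : Cardinal.{u} := (max (max ℵ₀ #E) #(Set.Iio j)) ^ ℵ₀ with hc
        have hc1 : max (max ℵ₀ #E) #(Set.Iio j) ≤ c :=
          Cardinal.self_le_power _ Cardinal.one_le_aleph0
        have hc0 : ℵ₀ ≤ c := ((le_max_left _ _).trans (le_max_left _ _)).trans hc1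
        have hcE : #E ≤ c := ((le_max_right _ _).trans (le_max_left _ _)).trans hc1
        have hcc : c ^ ℵ₀ = c := by
          rw [hc, ← Cardinal.power_mul, Cardinal.aleph0_mul_aleph0]
        rw [hP j]
        refine (S.mk_hull _).trans (max_le hc0 ?_)
        refine (Cardinal.mk_iUnion_le _).trans ?_
        have h1 : #(Set.Iio j) ≤ c := (le_max_right _ _).trans hc1
        have h2 : ∀ i : Set.Iio j, #((ocl (P i) ∪ E) ∪ {g i (P i), e i} : Set X) ≤ c := by
          intro i
          refine (Cardinal.mk_union_le _ _).trans ?_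
          have h3 : #(P i) ≤ c := by
            refine (ih i.1 i.2).trans ?_
            rw [hc]
            apply Cardinal.power_le_power_right
            apply max_le_max le_rfl
            exact Cardinal.mk_le_mk_of_subset (Set.Iio_subset_Iio (le_of_lt i.2))
          have h4 : #(ocl (P i)) ≤ c :=
            (mk_ocl_le S hX _).trans ((Cardinal.power_le_power_right h3).trans_eq hcc)
          have h5 : #((ocl (P i) ∪ E : Set X)) ≤ c := by
            refine (Cardinal.mk_union_le _ _).trans ?_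
            calc _ ≤ c + c := by gcongr
              _ = c := Cardinal.add_eq_self hc0
          have h6 : #({g i (P i), e i} : Set X) ≤ c := by
            refine le_trans ?_ hc0
            rw [Cardinal.le_aleph0_iff_set_countable]
            exact (Set.countable_singleton _).insert _
          calc _ ≤ c + c := by gcongr
            _ = c := Cardinal.add_eq_self hc0
        calc _ ≤ c * c := by
              gcongr
              exact ciSup_le' h2
          _ = c := Cardinal.mul_eq_self hc0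
    exact key.trans_lt (hpow _ (max_lt (max_lt hX0 hE) (hIio j)))
  · intro P mono hcl _ T hT hTseg
    exact closed_of_tight E ht P mono hcl T hT hTseg

/-- fewer than `#X` points of uncountable tightness, `#X` regular, and the countable closures of
small sets are small -/
theorem good_of_tight_regular [T2Space X] [CompactSpace X] (hX : Scattered X) (E : Set X)
    (hE : #E < #X) (ht : ∀ x, x ∉ E → TightAt x)
    (hX0 : ℵ₀ < #X) (hreg : (#X).IsRegular)
    (hcl : ∀ P : Set X, #P < #X → #(ocl P) < #X) : Good X := by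
  classical
  have hIio : ∀ j : (#X).ord.ToType, #(Set.Iio j) < #X := by
    intro j
    simpa using Cardinal.mk_Iio_lt j (by simp)
  refine good_of_chain hX (fun P => ocl P ∪ E)
    (fun P => (subset_ocl P).trans Set.subset_union_left) hX0 ?_ ?_
  · intro S P g e hP j
    induction j using WellFoundedLT.induction with
    | ind j ih =>
      rw [hP j]
      refine (S.mk_hull _).trans_lt (max_lt hX0 ?_)
      rw [Cardinal.card_iUnion_lt_iff_forall_of_isRegular hreg (hIio j)]
      intro i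
      refine (Cardinal.mk_union_le _ _).trans_lt (Cardinal.add_lt_of_lt hX0.le ?_ ?_)
      · exact (Cardinal.mk_union_le _ _).trans_lt
          (Cardinal.add_lt_of_lt hX0.le (hcl _ (ih i.1 i.2)) hE)
      · refine lt_of_le_of_lt ?_ hX0
        rw [Cardinal.le_aleph0_iff_set_countable]
        exact (Set.countable_singleton _).insert _
  · intro P mono hcl _ T hT hTseg
    exact closed_of_tight E ht P mono hcl T hT hTseg

/-- A rank function: near each point all other points have smaller rank. -/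
def IsRank (ρ : X → Ordinal.{u}) : Prop :=
  ∀ x, ∃ U : Set X, IsOpen U ∧ x ∈ U ∧ ∀ y ∈ U, y ≠ x → ρ y < ρ x

lemma IsRank.le {ρ : X → Ordinal.{u}} (h : IsRank ρ) (x : X) :
    ∃ U : Set X, IsOpen U ∧ x ∈ U ∧ ∀ y ∈ U, ρ y ≤ ρ x := by
  obtain ⟨U, hU, hx, h1⟩ := h x
  refine ⟨U, hU, hx, fun y hy => ?_⟩
  by_cases hyx : y = x
  · rw [hyx]
  · exact (h1 y hy hyx).le

lemma IsRank.isOpen {ρ : X → Ordinal.{u}} (h : IsRank ρ) (α : Ordinal.{u}) :
    IsOpen {x | ρ x < α} := by
  rw [isOpen_iff_forall_mem_open]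
  intro x hx
  obtain ⟨U, hU, hxU, h1⟩ := h.le x
  exact ⟨U, fun y hy => (h1 y hy).trans_lt hx, hU, hxU⟩

/-- compact sets have a point of maximal rank -/
lemma IsRank.exists_max {ρ : X → Ordinal.{u}} (h : IsRank ρ) {K : Set X} (hK : IsCompact K)
    (hne : K.Nonempty) : ∃ z ∈ K, ∀ y ∈ K, ρ y ≤ ρ z := by
  classical
  choose U hU hxU hle using h.le
  obtain ⟨t, htK, ht⟩ := hK.elim_nhds_subcover U (fun x _ => (hU x).mem_nhds (hxU x))
  have htne : t.Nonempty := by
    obtain ⟨y, hy⟩ := hne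
    obtain ⟨x, hx, -⟩ := Set.mem_iUnion₂.1 (ht hy)
    exact ⟨x, hx⟩
  obtain ⟨z, hz, hmax⟩ := t.exists_max_image ρ htne
  refine ⟨z, htK z hz, fun y hy => ?_⟩
  obtain ⟨x, hx, hyx⟩ := Set.mem_iUnion₂.1 (ht hy)
  exact (hle x y hyx).trans (hmax x hx)

/-- Points whose rank has only countably many predecessors among the ranks have countable
tightness. -/
theorem tightAt_of_rank [T2Space X] [CompactSpace X] {ρ : X → Ordinal.{u}} (h : IsRank ρ) (z : X)
    (hz : {α | α < ρ z ∧ ∃ y, ρ y = α}.Countable) : TightAt z := by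
  classical
  intro A hzA
  by_contra hcon
  have hzA' : z ∉ ocl A := hcon
  have hclA : z ∈ closure (ocl A) := closure_mono (subset_ocl A) hzA
  obtain ⟨U, hU, hzU, hUρ⟩ := h z
  -- the least bad rank
  have hbad : ∃ γ, z ∉ closure (U ∩ ocl A ∩ {y | γ ≤ ρ y}) := by
    refine ⟨ρ z, ?_⟩
    have : U ∩ ocl A ∩ {y | ρ z ≤ ρ y} = ∅ := by
      rw [Set.eq_empty_iff_forall_notMem]
      rintro y ⟨⟨hyU, hyA⟩, hy⟩
      by_cases hyz : y = z
      · rw [hyz] at hyA; exact hzA' hyA
      · exact absurd (hUρ y hyU hyz) (not_lt.2 hy)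
    rw [this, closure_empty]
    exact fun h => h
  set γ := sInf {γ | z ∉ closure (U ∩ ocl A ∩ {y | γ ≤ ρ y})} with hγ
  have hγbad : z ∉ closure (U ∩ ocl A ∩ {y | γ ≤ ρ y}) := csInf_mem hbad
  have hγmin : ∀ β, β < γ → z ∈ closure (U ∩ ocl A ∩ {y | β ≤ ρ y}) := by
    intro β hβ
    by_contra hc
    exact absurd (csInf_le' (show β ∈ {γ | z ∉ closure (U ∩ ocl A ∩ {y | γ ≤ ρ y})} from hc))
      (not_le.2 hβ)
  have hγz : γ ≤ ρ z := by
    by_contra hc
    rw [not_le] at hc
    have h1 := hγmin (ρ z) hc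
    have : U ∩ ocl A ∩ {y | ρ z ≤ ρ y} = ∅ := by
      rw [Set.eq_empty_iff_forall_notMem]
      rintro y ⟨⟨hyU, hyA⟩, hy⟩
      by_cases hyz : y = z
      · rw [hyz] at hyA; exact hzA' hyA
      · exact absurd (hUρ y hyU hyz) (not_lt.2 hy)
    rw [this, closure_empty] at h1
    exact h1
  -- a closed neighbourhood
  have hO : (U ∩ (closure (U ∩ ocl A ∩ {y | γ ≤ ρ y}))ᶜ) ∈ 𝓝 z :=
    Filter.inter_mem (hU.mem_nhds hzU) (isClosed_closure.isOpen_compl.mem_nhds hγbad)
  obtain ⟨W, hWz, hWcl, hWsub⟩ := exists_mem_nhds_isClosed_subset hO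
  have hWρ : ∀ y ∈ W ∩ ocl A, ρ y < γ := by
    rintro y ⟨hyW, hyA⟩
    by_contra hc
    rw [not_lt] at hc
    exact (hWsub hyW).2 (subset_closure ⟨⟨(hWsub hyW).1, hyA⟩, hc⟩)
  have hinf : ∀ β, β < γ → (W ∩ ocl A ∩ {y | β ≤ ρ y}).Infinite := by
    intro β hβ hfin
    have h1 : z ∈ closure (W ∩ ocl A ∩ {y | β ≤ ρ y}) := by
      have h2 := hγmin β hβ
      rw [mem_closure_iff_nhds] at h2 ⊢
      intro V hV
      obtain ⟨y, hyV, ⟨hyU, hyA⟩, hyβ⟩ := h2 (V ∩ W) (Filter.inter_mem hV hWz)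
      exact ⟨y, hyV.1, ⟨hyV.2, hyA⟩, hyβ⟩
    rw [hfin.isClosed.closure_eq] at h1
    exact hzA' h1.1.2
  -- choose a countable set
  set R : Set Ordinal.{u} := {α | α < ρ z ∧ ∃ y, ρ y = α} with hR
  have hch : ∀ β, ∃ a : Set X, β < γ → a ⊆ W ∩ ocl A ∩ {y | β ≤ ρ y} ∧ a.Countable ∧
      a.Infinite := by
    intro β
    by_cases hβ : β < γ
    · refine ⟨Set.range fun n => ((hinf β hβ).natEmbedding _ n : X), fun _ => ⟨?_, ?_, ?_⟩⟩
      · rintro _ ⟨n, rfl⟩
        exact ((hinf β hβ).natEmbedding _ n).2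
      · exact Set.countable_range _
      · exact Set.infinite_range_of_injective
          (Subtype.val_injective.comp ((hinf β hβ).natEmbedding _).injective)
    · exact ⟨∅, fun h => absurd h hβ⟩
  choose a ha using hch
  set a' : Set X := ⋃ β ∈ {β ∈ R | β < γ}, a β with ha'
  have ha'c : a'.Countable :=
    (hz.mono (Set.sep_subset _ _)).biUnion fun β hβ => (ha β hβ.2).2.1
  have ha'sub : a' ⊆ W ∩ ocl A := Set.iUnion₂_subset fun β hβ =>
    (ha β hβ.2).1.trans Set.inter_subset_left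
  have hcl : closure a' ⊆ W ∩ ocl A := by
    intro y hy
    exact ⟨closure_minimal (ha'sub.trans Set.inter_subset_left) hWcl hy,
      closure_subset_ocl (ha'sub.trans Set.inter_subset_right) ha'c hy⟩
  -- it is nonempty
  have hne : (closure a').Nonempty := by
    obtain ⟨y, hyW, hyA⟩ := mem_closure_iff_nhds.1 hclA W hWz
    have h1 : ρ y < γ := hWρ y ⟨hyW, hyA⟩
    have h2 : ρ y ∈ {β ∈ R | β < γ} := ⟨⟨h1.trans_le hγz, y, rfl⟩, h1⟩
    obtain ⟨w, hw⟩ := (ha (ρ y) h1).2.2.nonempty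
    exact ⟨w, subset_closure (Set.mem_iUnion₂.2 ⟨ρ y, h2, hw⟩)⟩
  obtain ⟨y, hy, hmax⟩ := h.exists_max isClosed_closure.isCompact hne
  have hyγ : ρ y < γ := hWρ y (hcl hy)
  have hyR : ρ y ∈ {β ∈ R | β < γ} := ⟨⟨hyγ.trans_le hγz, y, rfl⟩, hyγ⟩
  obtain ⟨hsub, hcount, hinfa⟩ := ha (ρ y) hyγ
  have hac : a (ρ y) ⊆ closure a' := fun w hw =>
    subset_closure (Set.mem_iUnion₂.2 ⟨ρ y, hyR, hw⟩)
  obtain ⟨w, hwc, hw⟩ :=
    hinfa.exists_accPt_of_subset_isCompact (isClosed_closure (s := a')).isCompact hac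
  obtain ⟨V, hV, hwV, hVρ⟩ := h w
  obtain ⟨v, ⟨hvV, hva⟩, hvw⟩ := accPt_iff_nhds.1 hw V (hV.mem_nhds hwV)
  have h1 : ρ v < ρ w := hVρ v hvV hvw
  have h2 : ρ y ≤ ρ v := (hsub hva).2
  exact absurd (hmax w hwc) (not_le.2 (h2.trans_lt h1))

end Pool.Agent.PiBase
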