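import Pool.Agent.PiBase.TightFinal

/-!
# Spaces with a small derived set of finite order
-/

set_option autoImplicit false

open Topology Cardinal Set Ordinal
open Pool.Agent.Hhelper71.Cp (Good Scattered PCPiBase good_of_aleph_one good_of_small
  isClosed_iterate_derivedSet piBase_of_countable piBase_of_pairs)

namespace Pool.Agent.PiBase

universe u

theorem good_of_derived {Z : Type u} [TopologicalSpace Z] [T2Space Z] [CompactSpace Z]
    (hZ : Scattered Z) (h0 : ℵ₀ < #Z) (n : ℕ)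
    (h : #(derivedSet^[n] (Set.univ : Set Z)) ≤ ℵ₁ ∨
      #(derivedSet^[n] (Set.univ : Set Z)) < #Z) : Good Z := by
  classical
  by_cases h1 : #Z ≤ ℵ₁
  · refine good_of_aleph_one hZ (le_antisymm h1 ?_)
    rw [← Cardinal.succ_aleph0]
    exact Order.succ_le_of_lt h0
  rw [not_le] at h1
  have h2 : ∃ n, #(derivedSet^[n] (Set.univ : Set Z)) < #Z :=
    ⟨n, h.elim (fun h => h.trans_lt h1) id⟩
  obtain ⟨m, hm⟩ : ∃ m, Nat.find h2 = m + 1 := by
    refine Nat.exists_eq_succ_of_ne_zero fun h0 => ?_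
    have := Nat.find_spec h2
    rw [h0] at this
    simp at this
  have h3 : #Z ≤ #(derivedSet^[m] (Set.univ : Set Z)) :=
    not_lt.1 (Nat.find_min h2 (by omega))
  have h4 := Nat.find_spec h2
  rw [hm, Function.iterate_succ_apply'] at h4
  set Y : Set Z := derivedSet^[m] (Set.univ : Set Z) with hY
  have hYc : CompactSpace Y :=
    isCompact_iff_compactSpace.1 (isClosed_iterate_derivedSet m).isCompact
  refine Good.of_subset Y h3 (good_of_small (hZ.subtype _) (h0.trans_le h3) ?_)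
  refine lt_of_le_of_lt ?_ (h4.trans_le h3)
  have h5 : ∀ z : {z : Y | ∀ V ∈ 𝓝 z, ¬ V.Countable}, ((z : Y) : Z) ∈ derivedSet Y := by
    rintro ⟨z, hz⟩
    rw [mem_derivedSet, accPt_iff_nhds]
    intro U hU
    by_contra hcon
    push Not at hcon
    refine hz (Subtype.val ⁻¹' U) (continuous_subtype_val.continuousAt.preimage_mem_nhds hU) ?_
    refine (Set.countable_singleton z).mono fun w hw => ?_
    exact Subtype.ext (hcon w ⟨hw, w.2⟩)
  refine Cardinal.mk_le_of_injective (f := fun z => (⟨_, h5 z⟩ : derivedSet Y)) ?_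
  intro a b hab
  have hab' : (((a : Y) : Z)) = ((b : Y) : Z) := congrArg (fun w : derivedSet Y => (w : Z)) hab
  exact Subtype.ext (Subtype.ext hab')

/-- the sufficient conditions for a closed subspace -/
def AdmD (Z : Type u) [TopologicalSpace Z] : Prop :=
  (∃ n : ℕ, #(derivedSet^[n] (Set.univ : Set Z)) ≤ ℵ₁ ∨
      #(derivedSet^[n] (Set.univ : Set Z)) < #Z) ∨
    #{z : Z | ∀ V ∈ 𝓝 z, ¬ V.Countable} < #Z ∨
    (CardCond Z ∧ (FewCond Z ∨ RankCond Z))

theorem good_of_admD {Z : Type u} [TopologicalSpace Z] [T2Space Z] [CompactSpace Z]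
    (hZ : Scattered Z) (h0 : ℵ₀ < #Z) (h : AdmD Z) : Good Z := by
  rcases h with ⟨n, h⟩ | h | ⟨hc, h | h⟩
  · exact good_of_derived hZ h0 n h
  · exact good_of_small hZ h0 h
  · exact good_of_few hZ h0 hc h
  · exact good_of_rank hZ h0 hc h

theorem piBase_of_admD {X : Type u} [TopologicalSpace X] [T2Space X] [CompactSpace X]
    (hX : Scattered X) (Y : ℕ → Set X)
    (hY : ∀ n, IsClosed (Y n)) (hsup : #X ≤ ⨆ n, #(Y n)) (hadm : ∀ n, AdmD (Y n)) :
    PCPiBase X := by
  classical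
  by_cases hXc : Countable X
  · exact piBase_of_countable
  have hX0 : ℵ₀ < #X := by
    rw [← not_le, Cardinal.mk_le_aleph0_iff]
    exact hXc
  have hbdd : BddAbove (Set.range fun n => #(Y n)) := Cardinal.bddAbove_of_small
  have hgood : ∀ n, ℵ₀ < #(Y n) → Good (Y n) := fun n hn => by
    have : CompactSpace (Y n) := isCompact_iff_compactSpace.1 (hY n).isCompact
    exact good_of_admD (hX.subtype _) hn (hadm n)
  have hfam : ∀ n, ∃ (ι : Type u) (x y : ι → X), (∀ i, x i ≠ y i) ∧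
      (∀ U : Set X, IsClopen U → {i | ¬ (x i ∈ U ↔ y i ∈ U)}.Countable) ∧
      (ℵ₀ < #(Y n) → #(Y n) ≤ #ι) := by
    intro n
    by_cases hn : ℵ₀ < #(Y n)
    · obtain ⟨ι, x, y, hxy, hc, h1, _⟩ := hgood n hn
      refine ⟨ι, fun i => (x i : X), fun i => (y i : X), fun i h => hxy i (Subtype.ext h),
        fun U hU => ?_, fun _ => h1⟩
      exact hc (Subtype.val ⁻¹' U) (hU.preimage continuous_subtype_val)
    · exact ⟨PEmpty, fun i => i.elim, fun i => i.elim, fun i => i.elim,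
        fun U _ => Set.to_countable _, fun h => absurd h hn⟩
  choose ι x y hxy hc h1 using hfam
  have hlow : ∀ n, ℵ₀ < #(Y n) → #(Y n) ≤ #(Σ n, ι n) := by
    intro n hn
    refine (h1 n hn).trans ?_
    exact Cardinal.mk_le_of_injective (f := fun i : ι n => (⟨n, i⟩ : Σ n, ι n))
      (fun a b h => by simpa using h)
  have hbig : #X ≤ #(Σ n, ι n) := by
    by_contra h
    rw [not_le] at h
    have h2 : max ℵ₀ #(Σ n, ι n) < ⨆ n, #(Y n) := (max_lt hX0 h).trans_le hsup
    obtain ⟨n, hn⟩ := (lt_ciSup_iff hbdd).1 h2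
    exact absurd (hlow n ((le_max_left _ _).trans_lt hn)) (not_le.2 ((le_max_right _ _).trans_lt hn))
  refine piBase_of_pairs hX (ι := Σ n, ι n) (fun i => x i.1 i.2) (fun i => y i.1 i.2)
    (fun i => hxy i.1 i.2) ?_ hbig (hX0.le.trans hbig)
  intro U hU
  have hsub : {i : Σ n, ι n | ¬ (x i.1 i.2 ∈ U ↔ y i.1 i.2 ∈ U)} ⊆
      ⋃ n, (fun i : ι n => (⟨n, i⟩ : Σ n, ι n)) '' {i | ¬ (x n i ∈ U ↔ y n i ∈ U)} := by
    rintro ⟨n, i⟩ hi
    exact Set.mem_iUnion.2 ⟨n, i, hi, rfl⟩
  exact (Set.countable_iUnion fun n => (hc n U hU).image _).mono hsub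

end Pool.Agent.PiBase
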