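import Pool.Agent.PiBase.Tight

/-!
# Point-countable π-bases: few points of uncountable tightness, small rank
-/

set_option autoImplicit false

open Topology Cardinal Set Ordinal

namespace Pool.Agent.PiBase

open Pool.Agent.Hhelper71.Cp

universe u

/-- the cardinal hypothesis: `c ^ ℵ₀ < #Z` for all `c < #Z`, or `#Z` is regular and the countable
closures of sets of size less than `#Z` have size less than `#Z` -/
def CardCond (Z : Type u) [TopologicalSpace Z] : Prop :=
  (∀ c : Cardinal.{u}, c < #Z → c ^ ℵ₀ < #Z) ∨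
    ((#Z).IsRegular ∧ ∀ A : Set Z, #A < #Z → #(ocl A) < #Z)

/-- fewer than `#Z` points of uncountable tightness -/
def FewCond (Z : Type u) [TopologicalSpace Z] : Prop :=
  #{z : Z | ¬ TightAt z} < #Z

/-- fewer than `#Z` points of rank at least `ω₁ * n`, for some rank function and some `n` -/
def RankCond (Z : Type u) [TopologicalSpace Z] : Prop :=
  ∃ ρ : Z → Ordinal.{u}, IsRank ρ ∧ ∃ n : ℕ, #{z : Z | ω₁ * n ≤ ρ z} < #Z

theorem good_of_few {Z : Type u} [TopologicalSpace Z] [T2Space Z] [CompactSpace Z]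
    (hZ : Scattered Z) (h0 : ℵ₀ < #Z) (hc : CardCond Z) (hf : FewCond Z) : Good Z := by
  have ht : ∀ z, z ∉ {z : Z | ¬ TightAt z} → TightAt z := fun z hz => not_not.1 hz
  rcases hc with hc | ⟨hreg, hc⟩
  · exact good_of_tight_pow hZ _ hf ht h0 hc
  · exact good_of_tight_regular hZ _ hf ht h0 hreg hc

lemma ocl_subtype {X : Type u} [TopologicalSpace X] (Z : Set X) (A : Set Z) :
    #(ocl A) ≤ #(ocl ((↑) '' A : Set X)) := by
  have h : ∀ z : ocl A, (((z : Z)) : X) ∈ ocl ((↑) '' A : Set X) := by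
    rintro ⟨z, C, hC, hCc, hz⟩
    refine ⟨(↑) '' C, Set.image_mono hC, hCc.image _, ?_⟩
    rw [closure_subtype] at hz
    exact hz
  refine Cardinal.mk_le_of_injective (f := fun z : ocl A =>
    (⟨_, h z⟩ : ocl ((↑) '' A : Set X))) ?_
  intro a b hab
  have hab' : ((a : Z) : X) = ((b : Z) : X) :=
    congrArg (fun w : ocl ((↑) '' A : Set X) => (w : X)) hab
  exact Subtype.ext (Subtype.ext hab')

lemma CardCond.subtype {X : Type u} [TopologicalSpace X] (h : CardCond X) (Z : Set X)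
    (hZ : #Z = #X) : CardCond Z := by
  rcases h with h | ⟨hreg, h⟩
  · left
    rw [hZ]
    exact h
  · right
    rw [hZ]
    refine ⟨hreg, fun A hA => (ocl_subtype Z A).trans_lt (h _ ?_)⟩
    exact Cardinal.mk_image_le.trans_lt hA

lemma Good.of_subset {X : Type u} [TopologicalSpace X] (Z : Set X) (hZ : #X ≤ #Z)
    (h : Good Z) : Good X := by
  obtain ⟨ι, x, y, hxy, hc, h2, h3⟩ := h
  refine ⟨ι, fun i => (x i : X), fun i => (y i : X), fun i h => hxy i (Subtype.ext h),
    fun U hU => ?_, hZ.trans h2, h3⟩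
  exact hc (Subtype.val ⁻¹' U) (hU.preimage continuous_subtype_val)

lemma countable_interval (β γ : Ordinal.{u}) (h : γ < β + ω₁) :
    {α | β ≤ α ∧ α < γ}.Countable := by
  rcases le_total γ β with hγ | hγ
  · have : {α | β ≤ α ∧ α < γ} = ∅ := by
      rw [Set.eq_empty_iff_forall_notMem]
      rintro α ⟨h1, h2⟩
      exact absurd (h1.trans_lt h2) (not_lt.2 hγ)
    rw [this]
    exact Set.countable_empty
  obtain ⟨ν, rfl⟩ := exists_add_of_le hγ
  have hν : ν < ω₁ := by simpa using h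
  have hc : (Set.Iio ν).Countable := by
    rw [← Cardinal.le_aleph0_iff_set_countable, Cardinal.mk_Iio_ordinal, Cardinal.lift_le_aleph0]
    rw [lt_omega_iff_card_lt] at hν
    exact Cardinal.lt_aleph_one_iff.1 hν
  refine (hc.image fun α => β + α).mono ?_
  rintro α ⟨h1, h2⟩
  obtain ⟨μ, rfl⟩ := exists_add_of_le h1
  exact ⟨μ, by simpa using h2, rfl⟩

theorem good_of_rank {Z : Type u} [TopologicalSpace Z] [T2Space Z] [CompactSpace Z]
    (hZ : Scattered Z) (h0 : ℵ₀ < #Z) (hc : CardCond Z) (hf : RankCond Z) : Good Z := by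
  classical
  obtain ⟨ρ, hρ, hn⟩ := hf
  obtain ⟨m, hm⟩ : ∃ m, Nat.find hn = m + 1 := by
    refine Nat.exists_eq_succ_of_ne_zero fun h => ?_
    have := Nat.find_spec hn
    rw [h] at this
    simp at this
  have h1 := Nat.find_spec hn
  have h2 := Nat.find_min hn (m := m) (by omega)
  rw [hm] at h1
  rw [not_lt] at h2
  set Y : Set Z := {z : Z | ω₁ * m ≤ ρ z} with hY
  have hYc : IsClosed Y := by
    have h3 := (hρ.isOpen (ω₁ * m)).isClosed_compl
    have h4 : {x | ρ x < ω₁ * m}ᶜ = Y := by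
      ext x
      simp [hY]
    rwa [h4] at h3
  have hYcard : #Y = #Z := le_antisymm (Cardinal.mk_set_le _) h2
  have : CompactSpace Y := isCompact_iff_compactSpace.1 hYc.isCompact
  refine Good.of_subset Y h2 ?_
  refine good_of_few (hZ.subtype Y) (by rw [hYcard]; exact h0) (hc.subtype Y hYcard) ?_
  -- few points
  have hρY : IsRank (fun z : Y => ρ z) := by
    intro z
    obtain ⟨U, hU, hzU, hUρ⟩ := hρ z
    refine ⟨Subtype.val ⁻¹' U, hU.preimage continuous_subtype_val, hzU, fun y hy hyz => ?_⟩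
    exact hUρ y hy fun h => hyz (Subtype.ext h)
  unfold FewCond
  rw [hYcard]
  refine lt_of_le_of_lt ?_ h1
  have h5 : ∀ z : {z : Y | ¬ TightAt z}, ((z : Y) : Z) ∈ {z : Z | ω₁ * ((m + 1 : ℕ)) ≤ ρ z} := by
    rintro ⟨z, hz⟩
    by_contra hcon
    rw [Set.mem_ofPred_eq, not_le] at hcon
    apply hz
    refine tightAt_of_rank hρY z ?_
    refine (countable_interval (ω₁ * m) (ρ z) ?_).mono ?_
    · rw [Nat.cast_succ, mul_add, mul_one] at hcon
      exact hcon
    · rintro α ⟨hα, y, rfl⟩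
      exact ⟨y.2, hα⟩
  refine Cardinal.mk_le_of_injective (f := fun z => (⟨_, h5 z⟩ :
    {z : Z | ω₁ * ((m + 1 : ℕ)) ≤ ρ z})) ?_
  intro a b hab
  have hab' : ((a : Y) : Z) = ((b : Y) : Z) :=
    congrArg (fun w : {z : Z | ω₁ * ((m + 1 : ℕ)) ≤ ρ z} => (w : Z)) hab
  exact Subtype.ext (Subtype.ext hab')

/-- the sufficient conditions for a closed subspace -/
def Adm (Z : Type u) [TopologicalSpace Z] : Prop :=
  #Z ≤ ℵ₁ ∨ #{z : Z | ∀ V ∈ 𝓝 z, ¬ V.Countable} < #Z ∨
    (CardCond Z ∧ (FewCond Z ∨ RankCond Z))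

theorem good_of_adm {Z : Type u} [TopologicalSpace Z] [T2Space Z] [CompactSpace Z]
    (hZ : Scattered Z) (h0 : ℵ₀ < #Z) (h : Adm Z) : Good Z := by
  rcases h with h | h | ⟨hc, h | h⟩
  · refine good_of_aleph_one hZ (le_antisymm h ?_)
    rw [← Cardinal.succ_aleph0]
    exact Order.succ_le_of_lt h0
  · exact good_of_small hZ h0 h
  · exact good_of_few hZ h0 hc h
  · exact good_of_rank hZ h0 hc h

theorem piBase_of_adm {X : Type u} [TopologicalSpace X] [T2Space X] [CompactSpace X]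
    (hX : Scattered X) (Y : ℕ → Set X)
    (hY : ∀ n, IsClosed (Y n)) (hsup : #X ≤ ⨆ n, #(Y n)) (hadm : ∀ n, Adm (Y n)) :
    PCPiBase X := by
  classical
  by_cases hXc : Countable X
  · exact piBase_of_countable
  have hX0 : ℵ₀ < #X := by
    rw [← not_le, Cardinal.mk_le_aleph0_iff]
    exact hXc
  have hbdd : BddAbove (Set.range fun n => #(Y n)) := Cardinal.bddAbove_of_small
  have hgood : ∀ n, ℵ₀ < #(Y n) → Good (Y n) := fun n hn => by
    have : CompactSpace (Y n) := isCompact_iff_compactSpace.1 (hY n).isCompact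
    exact good_of_adm (hX.subtype _) hn (hadm n)
  have hfam : ∀ n, ∃ (ι : Type u) (x y : ι → X), (∀ i, x i ≠ y i) ∧
      (∀ U : Set X, IsClopen U → {i | ¬ (x i ∈ U ↔ y i ∈ U)}.Countable) ∧
      (ℵ₀ < #(Y n) → #(Y n) ≤ #ι) := by
    intro n
    by_cases hn : ℵ₀ < #(Y n)
    · obtain ⟨ι, x, y, hxy, hc, h1, _⟩ := hgood n hn
      refine ⟨ι, fun i => (x i : X), fun i => (y i : X), fun i h => hxy i (Subtype.ext h),
        fun U hU => ?_, fun _ => h1⟩
      exact hc (Subtype.val ⁻¹' U) (hU.preimage continuous_subtype_val)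
    · exact ⟨PEmpty, fun i => i.elim, fun i => i.elim, fun i => i.elim,
        fun U _ => Set.to_countable _, fun h => absurd h hn⟩
  choose ι x y hxy hc h1 using hfam
  have hlow : ∀ n, ℵ₀ < #(Y n) → #(Y n) ≤ #(Σ n, ι n) := by
    intro n hn
    refine (h1 n hn).trans ?_
    exact Cardinal.mk_le_of_injective (f := fun i : ι n => (⟨n, i⟩ : Σ n, ι n))
      (fun a b h => by simpa using h)
  have hbig : #X ≤ #(Σ n, ι n) := by
    by_contra h
    rw [not_le] at h
    have h2 : max ℵ₀ #(Σ n, ι n) < ⨆ n, #(Y n) := (max_lt hX0 h).trans_le hsup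
    obtain ⟨n, hn⟩ := (lt_ciSup_iff hbdd).1 h2
    exact absurd (hlow n ((le_max_left _ _).trans_lt hn)) (not_le.2 ((le_max_right _ _).trans_lt hn))
  refine piBase_of_pairs hX (ι := Σ n, ι n) (fun i => x i.1 i.2) (fun i => y i.1 i.2)
    (fun i => hxy i.1 i.2) ?_ hbig (hX0.le.trans hbig)
  intro U hU
  have hsub : {i : Σ n, ι n | ¬ (x i.1 i.2 ∈ U ↔ y i.1 i.2 ∈ U)} ⊆
      ⋃ n, (fun i : ι n => (⟨n, i⟩ : Σ n, ι n)) '' {i | ¬ (x n i ∈ U ↔ y n i ∈ U)} := by
    rintro ⟨n, i⟩ hi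
    exact Set.mem_iUnion.2 ⟨n, i, hi, rfl⟩
  exact (Set.countable_iUnion fun n => (hc n U hU).image _).mono hsub

end Pool.Agent.PiBase
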